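import Pool.Agent.H14.MagCay

set_option autoImplicit false

namespace Pool.Agent.Results.MP_cbccc2_co.Lift

open Matrix Pool.Agent.H14.Mag
open scoped ComplexOrder

def s : Fin 9 → Fin 7 → ZMod 2 :=
  ![![1, 0, 0, 0, 0, 0, 0], ![0, 1, 0, 0, 0, 0, 0], ![0, 0, 1, 0, 0, 0, 0], ![0, 0, 0, 1, 0, 0, 0],
    ![0, 0, 0, 0, 1, 0, 0], ![1, 1, 1, 1, 1, 0, 0], ![0, 0, 0, 0, 0, 1, 0], ![0, 0, 0, 0, 0, 0, 1],
    ![1, 1, 1, 0, 0, 1, 1]]

def e : Fin 9 → Fin 9 → ZMod 2 := fun i j => if j = i then 1 else 0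

theorem s0 : ∀ i, s i ≠ 0 := by decide
theorem e0 : ∀ i, e i ≠ 0 := by decide
theorem sinj : Function.Injective s := by decide
theorem einj : Function.Injective e := by decide

theorem anti3 {R : Type} [Ring R] (x a b c : R) (ha : x * a = -(a * x)) (hb : x * b = -(b * x))
    (hc : x * c = -(c * x)) : x * (a * b * c) = -(a * b * c * x) := by
  calc x * (a * b * c) = (x * a) * b * c := by noncomm_ring
    _ = -(a * (x * b) * c) := by rw [ha]; noncomm_ring
    _ = a * b * (x * c) := by rw [hb]; noncomm_ring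
    _ = _ := by rw [hc]; noncomm_ring

theorem anti33 {R : Type} [Ring R] (t : Fin 9 → R) (h : ∀ i j, i ≠ j → t i * t j = -(t j * t i))
    (i j k l m n : Fin 9)
    (hne : ∀ x ∈ [i, j, k], ∀ y ∈ [l, m, n], x ≠ y) :
    (t i * t j * t k) * (t l * t m * t n) = -((t l * t m * t n) * (t i * t j * t k)) := by
  have f : ∀ y ∈ [l, m, n], t y * (t i * t j * t k) = -(t i * t j * t k * t y) := fun y hy =>
    anti3 _ _ _ _ (h _ _ (hne i (by simp) y hy).symm) (h _ _ (hne j (by simp) y hy).symm)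
      (h _ _ (hne k (by simp) y hy).symm)
  refine anti3 _ _ _ _ ?_ ?_ ?_
  · rw [f l (by simp), neg_neg]
  · rw [f m (by simp), neg_neg]
  · rw [f n (by simp), neg_neg]

def Supp (M : Matrix (Fin 7 → ZMod 2) (Fin 7 → ZMod 2) ℂ) (v : Fin 7 → ZMod 2) : Prop :=
  ∀ x y, y ≠ x + v → M x y = 0

theorem Supp.mul {M N : Matrix (Fin 7 → ZMod 2) (Fin 7 → ZMod 2) ℂ} {v w : Fin 7 → ZMod 2}
    (h1 : Supp M v) (h2 : Supp N w) : Supp (M * N) (v + w) := by
  intro x y h
  rw [Matrix.mul_apply]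
  refine Finset.sum_eq_zero fun z _ => ?_
  by_cases e : z = x + v
  · rw [h2 z y (by rw [e, add_assoc]; exact h), mul_zero]
  · rw [h1 x z e, zero_mul]

theorem Supp.comm {M N : Matrix (Fin 7 → ZMod 2) (Fin 7 → ZMod 2) ℂ}
    (h1 : Supp M 0) (h2 : Supp N 0) : M * N = N * M := by
  have d : ∀ M, Supp M 0 → M = diagonal (fun x => M x x) := by
    intro M h
    ext x y
    by_cases e : x = y
    · subst e; simp
    · rw [diagonal_apply_ne _ e, h x y (by simpa using Ne.symm e)]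
  rw [d M h1, d N h2, diagonal_mul_diagonal, diagonal_mul_diagonal]
  simp only [mul_comm]

theorem base : nu (cay s s0) < 6 := by
  by_contra hc
  obtain ⟨σ, hσ, hp⟩ := exists_opt (cay s s0)
  have hp2 := psd_shift _ (herm _ σ hσ) 6 fun t f hf ht =>
    (not_lt.mp hc).trans (le_of_psd _ _ hp t f hf ht)
  rw [lap_eq s s0 sinj] at hp2
  have ha := anti_of_psd s s0 sinj (by decide) (by decide +kernel) σ hσ hp2
  have hs : ∀ i, Supp (T s σ i) (s i) := fun i x y h => by simp [T, h]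
  have hu : ∀ i, IsUnit (T s σ i) := fun i =>
    ⟨⟨_, _, T_sq s s0 σ hσ i, T_sq s s0 σ hσ i⟩, rfl⟩
  generalize T s σ = t at ha hs hu
  have p1 : Supp ((t 0 * t 1 * t 2) * (t 3 * t 4 * t 5)) 0 := by
    have := (((hs 0).mul (hs 1)).mul (hs 2)).mul (((hs 3).mul (hs 4)).mul (hs 5))
    rwa [show s 0 + s 1 + s 2 + (s 3 + s 4 + s 5) = 0 by decide] at this
  have p2 : Supp ((t 3 * t 4 * t 5) * (t 6 * t 7 * t 8)) 0 := by
    have := (((hs 3).mul (hs 4)).mul (hs 5)).mul (((hs 6).mul (hs 7)).mul (hs 8))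
    rwa [show s 3 + s 4 + s 5 + (s 6 + s 7 + s 8) = 0 by decide] at this
  have c := p1.comm p2
  have ab := anti33 t ha 3 4 5 0 1 2 (by decide)
  have ac := anti33 t ha 6 7 8 0 1 2 (by decide)
  have bc := anti33 t ha 6 7 8 3 4 5 (by decide)
  have ua := ((hu 0).mul (hu 1)).mul (hu 2)
  have ub := ((hu 3).mul (hu 4)).mul (hu 5)
  have uc := ((hu 6).mul (hu 7)).mul (hu 8)
  generalize t 0 * t 1 * t 2 = a at *
  generalize t 3 * t 4 * t 5 = b at *
  generalize t 6 * t 7 * t 8 = d at *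
  have k : b * d * (a * b) = -(a * b * (b * d)) := by
    calc b * d * (a * b) = b * (d * a) * b := by noncomm_ring
      _ = -((b * a) * (d * b)) := by rw [ac]; noncomm_ring
      _ = _ := by rw [ab, bc]; noncomm_ring
  rw [k, eq_neg_iff_add_eq_zero, ← two_smul ℂ, smul_eq_zero] at c
  have u := (ua.mul ub).mul (ub.mul uc)
  rw [c.resolve_left two_ne_zero] at u
  exact not_isUnit_zero u

noncomputable def cc (x : Fin 9 → ZMod 2) (i : Fin 9) : ℂ := chi (∑ j, if j < i then x j else 0)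

noncomputable def hu (x y : Fin 9 → ZMod 2) : ℂ := ∑ i, if y = x + e i then cc x i else 0

theorem hu_eq (x : Fin 9 → ZMod 2) (i : Fin 9) : hu x (x + e i) = cc x i := by
  have : ∀ j, x + e i = x + e j ↔ j = i := fun j =>
    ⟨fun h => (einj (add_left_cancel h)).symm, fun h => by rw [h]⟩
  simp only [hu, this, Finset.sum_ite_eq', Finset.mem_univ, if_true]

theorem cc_add (x : Fin 9 → ZMod 2) (i j : Fin 9) :
    cc (x + e i) j = cc x j * (if i < j then -1 else 1) := by
  have : (∑ k, if k < j then (x + e i) k else 0) =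
      (∑ k, if k < j then x k else 0) + ∑ k, if k < j then e i k else 0 := by
    rw [← Finset.sum_add_distrib]
    refine Finset.sum_congr rfl fun k _ => ?_
    split_ifs <;> simp
  have h2 : ∀ i j : Fin 9, (∑ k, if k < j then e i k else 0) = if i < j then 1 else 0 := by decide
  rw [cc, this, chi_add, h2, cc]
  split_ifs <;> simp [chi]

theorem top : (6 : ℝ) ≤ nu (cay e e0) := by
  refine six_le e e0 einj hu ?_ ?_
  · rintro x y ⟨i, rfl⟩
    have h1 := hu_eq (x + e i) i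
    rw [add_assoc, add_self2, add_zero, cc_add] at h1
    rw [h1, hu_eq]
    refine ⟨?_, by simp [cc, chi_star]⟩
    unfold cc chi
    split_ifs <;> simp
  · intro i j hij
    ext x y
    rw [Matrix.neg_apply, TT, TT, hu_eq, hu_eq, hu_eq, hu_eq, cc_add, cc_add,
      add_right_comm x (e j) (e i)]
    rcases lt_or_gt_of_ne hij with h | h
    · rw [if_pos h, if_neg (not_lt.mpr h.le)]
      split_ifs
      · ring
      · simp
    · rw [if_pos (show j < i from h), if_neg (not_lt.mpr h.le)]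
      split_ifs
      · ring
      · simp

def pr (x : Fin 9 → ZMod 2) : Fin 7 → ZMod 2 := ∑ j, x j • s j

theorem pr_add (x : Fin 9 → ZMod 2) (i : Fin 9) : pr (x + e i) = pr x + s i := by
  simp [pr, add_smul, Finset.sum_add_distrib, e]

theorem result :
    ∃ (V W : Type) (_ : Fintype V) (_ : DecidableEq V) (_ : Fintype W) (_ : DecidableEq W)
      (G : SimpleGraph V) (H : SimpleGraph W) (_ : DecidableRel G.Adj) (_ : DecidableRel H.Adj)
      (p : H →g G), Function.Surjective p ∧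
      (∀ x, Set.BijOn p (H.neighborSet x) (G.neighborSet (p x))) ∧ nu G < nu H := by
  refine ⟨_, _, _, _, _, _, cay s s0, cay e e0, _, _,
    ⟨pr, fun {x y} ⟨i, h⟩ => ⟨i, by rw [h, pr_add]⟩⟩, ?_, ?_, base.trans_le top⟩
  · intro y
    refine ⟨![y 0, y 1, y 2, y 3, y 4, 0, y 5, y 6, 0], ?_⟩
    show pr _ = y
    ext k
    fin_cases k <;> simp [pr, s, Fin.sum_univ_succ]
  · intro x
    refine ⟨?_, ?_, ?_⟩
    · rintro _ ⟨i, rfl⟩
      exact ⟨i, pr_add x i⟩
    · rintro _ ⟨i, rfl⟩ _ ⟨j, rfl⟩ h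
      have h : pr (x + e i) = pr (x + e j) := h
      rw [pr_add, pr_add] at h
      rw [sinj (add_left_cancel h)]
    · rintro _ ⟨i, rfl⟩
      exact ⟨x + e i, ⟨i, rfl⟩, pr_add x i⟩

end Pool.Agent.Results.MP_cbccc2_co.Lift
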